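import Pool.Agent.MWFE.StmtsA
import Pool.Agent.Helper77_MWE.LOC

/-!
# Squad MWFE, row LCF (helper21): adjacent letters with a common later or earlier factor
-/

set_option autoImplicit false

namespace Pool.Agent.MWFE.H21

open Pool.Agent.Helper14_MV Pool.Agent.Helper2_MV Pool.Agent.MVD
open Pool.Agent.MWE (Can XX fxy dxy dx dy up cp L4 pr Xs xl isx Fs nd nr)
open Pool.Agent.MWGR (cb)

/-- row LCF -/
theorem lcf : LcfStmt := by
  intro β hF hZ p q g r a b ha hb
  by_cases hab : a = b
  · subst hab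
    exact ⟨fun _ => RR.refl _, fun _ => RR.refl _⟩
  have h := Pool.Agent.MWE.H77.loc β p q g r a b hab ha hb
  have hFC : ∀ c', Pool.Agent.MWE.FC β c' := fun c' p q r x y hm => hF p q c' r x y hm
  have hZC : ∀ c', Pool.Agent.MWE.ZC β c' := fun c' p q r x y hm => hZ p q c' r x y hm
  exact ⟨fun hm => h.1 hm fun c' _ _ _ => hFC c', fun hm => h.2 hm fun c' _ _ _ => hZC c'⟩

end Pool.Agent.MWFE.H21
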